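import Pool.Agent.Y812.TM.Main
import Pool.Agent.XV.MT.All

/-!
All quadratic twists of `X_0(15)` are modular.
-/

set_option autoImplicit false

open UpperHalfPlane MatrixGroups CongruenceSubgroup Filter Topology
open scoped ModularForm Pointwise

namespace Pool.Agent.NH5.GF

open Pool.Agent.XV.MT
open Pool.Agent.Y812.TM (AL AL_of_one AL_one twistsModular)
open Pool.Agent.Y19.QT (coef IsFormOf TwistsModular)

variable {f : CuspForm (Gamma0 15 : Subgroup (GL (Fin 2) ℝ)) 2}

lemma form_of (hf : FormOK f) {w : ℂ} (hw : 0 < w.im) : f (ofComplex w) = ff w := by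
  rw [ofComplex_apply_of_im_pos hw, hf.val]

/-- from the cusp data to the Atkin-Lehner property -/
lemma AL_of_map (hf : FormOK f) {m j : ℂ → ℂ} (h : IsMap m j) {M R : ℕ} (hM : 0 < M) (hMR : M * R = 15)
    {A₀ B₀ C₀ D₀ : ℤ} (hdet₀ : (M : ℤ) * A₀ * D₀ - R * B₀ * C₀ = 1)
    (hm : ∀ z : ℂ, 0 < z.im →
      ((M : ℂ) * A₀ * z + B₀) / ((M : ℂ) * R * C₀ * z + M * D₀) = m z)
    (hj : ∀ z : ℂ, 0 < z.im → j z * ((M : ℂ) * ((R : ℂ) * C₀ * z + D₀) ^ 2) = 1) :
    ∃ ε : ℝ, (ε = 1 ∨ ε = -1) ∧ AL f M R ε := by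
  obtain ⟨ε, hε, hs⟩ := a_prim.sign m j h
  have key : ∀ z : ℂ, 0 < z.im →
      f (ofComplex (((M : ℂ) * A₀ * z + B₀) / ((M : ℂ) * R * C₀ * z + M * D₀))) =
      ε * ((M : ℂ) * ((R : ℂ) * C₀ * z + D₀) ^ 2) * f (ofComplex z) := by
    intro z hz
    rw [hm z hz, form_of hf (h.pos z hz), form_of hf hz]
    have h1 := hs z hz
    have h2 := hj z hz
    linear_combination ((M : ℂ) * ((R : ℂ) * C₀ * z + D₀) ^ 2) * h1 - ff (m z) * h2
  rcases hε with h1 | h1
  · refine ⟨1, Or.inl rfl, AL_of_one f hM hMR hdet₀ ?_⟩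
    intro z hz
    rw [key z hz, h1]
    push_cast
    rfl
  · refine ⟨-1, Or.inr rfl, AL_of_one f hM hMR hdet₀ ?_⟩
    intro z hz
    rw [key z hz, h1]
    push_cast
    rfl

lemma lin_ne {c d : ℤ} (h : c ≠ 0 ∨ d ≠ 0) {z : ℂ} (hz : 0 < z.im) : (c : ℂ) * z + d ≠ 0 :=
  Pool.Agent.Y812.TM.lin_ne_zero h hz

/-- all Atkin-Lehner involutions -/
theorem AL15 (hf : FormOK f) (M R : ℕ) (hMR : M * R = 15) :
    ∃ ε : ℝ, (ε = 1 ∨ ε = -1) ∧ AL f M R ε := by
  have hM : M ∣ 15 := ⟨R, hMR.symm⟩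
  have hM' : M ∈ Nat.divisors 15 := Nat.mem_divisors.2 ⟨hM, by norm_num⟩
  have hM'' : M = 1 ∨ M = 3 ∨ M = 5 ∨ M = 15 := by
    have : Nat.divisors 15 = {1, 3, 5, 15} := by decide
    rw [this] at hM'
    simpa using hM'
  rcases hM'' with rfl | rfl | rfl | rfl
  · obtain rfl : R = 15 := by omega
    exact ⟨1, Or.inl rfl, by
      have := AL_one f
      push_cast
      exact this⟩
  · obtain rfl : R = 5 := by omega
    refine AL_of_map hf a_id.c3.map (by norm_num) rfl (A₀ := 1) (B₀ := 1) (C₀ := 1) (D₀ := 2)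
      (by norm_num) ?_ ?_
    · intro z _
      unfold m3
      push_cast
      congr 1 <;> ring
    · intro z hz
      have h0 : (5 : ℂ) * z + 2 ≠ 0 := by
        have := lin_ne (c := 5) (d := 2) (Or.inl (by norm_num)) hz
        exact_mod_cast this
      unfold j3
      push_cast
      have e : (5 : ℂ) * 1 * z + 2 = 5 * z + 2 := by ring
      rw [e]
      exact inv_mul_cancel₀ (mul_ne_zero (by norm_num) (pow_ne_zero 2 h0))
  · obtain rfl : R = 3 := by omega
    refine AL_of_map hf a_id.c5.map (by norm_num) rfl (A₀ := 1) (B₀ := -2) (C₀ := 1) (D₀ := -1)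
      (by norm_num) ?_ ?_
    · intro z _
      unfold m5
      push_cast
      congr 1 <;> ring
    · intro z hz
      have h0 : (3 : ℂ) * z - 1 ≠ 0 := by
        have := lin_ne (c := 3) (d := -1) (Or.inl (by norm_num)) hz
        push_cast at this
        rwa [← sub_eq_add_neg] at this
      unfold j5
      push_cast
      have e : (3 : ℂ) * 1 * z + -1 = 3 * z - 1 := by ring
      rw [e]
      exact inv_mul_cancel₀ (mul_ne_zero (by norm_num) (pow_ne_zero 2 h0))
  · obtain rfl : R = 1 := by omega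
    refine AL_of_map hf a_id.c15.map (by norm_num) rfl (A₀ := 0) (B₀ := -1) (C₀ := 1) (D₀ := 0)
      (by norm_num) ?_ ?_
    · intro z _
      unfold m15
      push_cast
      congr 1 <;> ring
    · intro z hz
      have h0 : z ≠ 0 := by
        rintro rfl
        simp at hz
      unfold j15
      push_cast
      have e : (1 : ℂ) * 1 * z + 0 = z := by ring
      rw [e]
      exact inv_mul_cancel₀ (mul_ne_zero (by norm_num) (pow_ne_zero 2 h0))

/-- the newform of `X_0(15)` -/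
theorem isForm15 : ∃ f : CuspForm (Gamma0 15 : Subgroup (GL (Fin 2) ℝ)) 2,
    IsFormOf (-12987) (-263466) 15 f ∧
    ∀ M R : ℕ, M * R = 15 → ∃ ε : ℝ, (ε = 1 ∨ ε = -1) ∧ AL f M R ε := by
  obtain ⟨f, hf, hn⟩ := a_form
  refine ⟨f, ?_, AL15 hf⟩
  refine ⟨by norm_num, hf.one, ?_, hn.mul, fun p j hp => hn.pow p j hp, ?_, ?_, ?_, ?_⟩
  · intro n
    obtain ⟨c, hc⟩ := hf.int n
    change ((qExpansion 1 f).coeff n).im = 0
    rw [hc]
    simp
  · intro p hp h
    exact hn.good p hp h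
  · intro p hp h
    exact hn.bad p hp h
  · obtain ⟨w, hw, h⟩ := hn.fricke
    refine ⟨w, hw, fun τ τ' hτ => ?_⟩
    have := h τ τ' (by exact_mod_cast hτ)
    exact_mod_cast this
  · intro p hp h
    have h2 : p ≠ 2 := by
      rintro rfl
      exact h (dvd_mul_right _ _)
    have h3 : p ≠ 3 := by
      rintro rfl
      exact h (by norm_num)
    have h5 : p ≠ 5 := by
      rintro rfl
      exact h (by norm_num)
    refine ⟨?_, INST.points t_PCARD hf p hp h2 h3⟩
    intro hd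
    have hd' : p ∣ 3 * 5 := by simpa using hd
    rcases (Nat.Prime.dvd_mul hp).1 hd' with h4 | h4
    · exact h3 ((Nat.prime_dvd_prime_iff_eq hp Nat.prime_three).1 h4)
    · exact h5 ((Nat.prime_dvd_prime_iff_eq hp (by norm_num)).1 h4)

/-- all quadratic twists of `X_0(15)` are modular -/
theorem twists15 : TwistsModular (-12987) (-263466) := by
  obtain ⟨f, hf, hA⟩ := isForm15
  exact twistsModular hf (by
    rw [show (15 : ℕ) = 3 * 5 by norm_num]
    exact (Nat.squarefree_mul (by norm_num)).2 ⟨Nat.prime_three.squarefree,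
      (show Nat.Prime 5 by norm_num).squarefree⟩) hA

end Pool.Agent.NH5.GF
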