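import Pool.Agent.TH942.RZ.Curve
import Pool.Agent.TH941.Newform
import Pool.Agent.TH270.MS.EQ3
import Pool.Agent.TH270.MS.GrowthF
import Pool.Agent.Y19.QT.Forms

/-!
The laws for the product of Birch and Swinnerton-Dyer for a curve with a newform and `L(E, 1) ≠ 0`.
-/

set_option autoImplicit false

open UpperHalfPlane MatrixGroups CongruenceSubgroup Filter Topology MeasureTheory

namespace Pool.Agent.NH5.GF

open Pool.Agent.Y19.QT (coef IsFormOf TwistsModular)
open Pool.Agent.W263.BSD (IsLSeries GoodPrime pointCount bsdProduct bsdProduct_pos)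
open Pool.Agent.TH270.MS.EQ (dev bm_dev)
open Pool.Agent.TH270.MS (lmean lmean_zero)

section
variable {a b : ℤ} {N : ℕ} {f : CuspForm (Gamma0 N : Subgroup (GL (Fin 2) ℝ)) 2}

theorem heckeOf (hf : IsFormOf a b N f) : Pool.Agent.TH941.Hecke f where
  one := hf.one
  real := hf.real
  mul := hf.mul
  pow := hf.pow
  good := hf.good
  bad := hf.bad

theorem belongsOf (hf : IsFormOf a b N f) : Pool.Agent.TH941.Belongs a b f := by
  intro p hp
  have h := hf.points p hp.1 (fun h => hp.2 (by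
    have e : (2 * (-4 * a ^ 3 - 27 * b ^ 2) : ℤ) = -(2 * (4 * a ^ 3 + 27 * b ^ 2)) := by ring
    rw [e, dvd_neg]
    exact h))
  change coef f p = _
  rw [h.2]
  unfold Pool.Agent.Y19.QT.ap pointCount
  push_cast
  rfl

end

/-- no zeros to the right of the central line -/
def NZ (F : ℂ → ℂ) : Prop := ∀ s : ℂ, 1 < s.re → F s ≠ 0

/-- the deviation tends to zero -/
theorem dev_lim {a b : ℤ} {ρ C : ℝ} (hC : 0 < C)
    (h : Tendsto (fun x : ℝ => bsdProduct a b x / Real.log x ^ ρ) atTop (𝓝 C)) :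
    Tendsto (dev a b ρ C) atTop (𝓝 0) := by
  have h1 : Tendsto (fun x : ℝ => bsdProduct a b x / Real.log x ^ ρ / C) atTop (𝓝 1) := by
    have := h.div_const C
    rwa [div_self hC.ne'] at this
  have h2 := (Real.continuousAt_log one_ne_zero).tendsto.comp h1
  rw [Real.log_one] at h2
  refine h2.congr fun x => ?_
  simp only [Function.comp_apply]
  unfold dev
  congr 1
  rw [div_div, mul_comm C]

/-- the laws for a curve with a newform -/
theorem laws {a b : ℤ} (hΔ : 4 * a ^ 3 + 27 * b ^ 2 ≠ 0)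
    (h : ∃ (N : ℕ) (f : CuspForm (Gamma0 N : Subgroup (GL (Fin 2) ℝ)) 2), IsFormOf a b N f)
    {F : ℂ → ℂ} (hF : IsLSeries a b F) (h1 : F 1 ≠ 0) :
    (∀ ρ C : ℝ, 0 < C → List.TFAE [
      NZ F ∧ ρ = 0 ∧ C = √2 / ‖F 1‖,
      Tendsto (fun X : ℝ => (∫ x in Real.exp 1..X, |dev a b ρ C x| / x) / Real.log X) atTop (𝓝 0),
      Tendsto (fun X : ℝ => (∫ x in Real.exp 1..X, dev a b ρ C x ^ 2 / x) / Real.log X) atTop
        (𝓝 0)]) ∧
    (∀ ρ : ℝ, (NZ F ∧ ρ = 0) ↔
      ∃ B : ℝ, ∀ᶠ X : ℝ in atTop, ∫ x in Real.exp 1..X,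
        |Real.log (bsdProduct a b x) - ρ * Real.log (Real.log x)| / x ≤ B * Real.log X) ∧
    (∀ ρ C : ℝ, C ≠ 0 → Tendsto (fun x : ℝ => bsdProduct a b x / Real.log x ^ ρ) atTop (𝓝 C) →
      NZ F ∧ ρ = 0 ∧ C = √2 / ‖F 1‖) := by
  obtain ⟨N, f, hf⟩ := h
  have : NeZero N := ⟨hf.pos.ne'⟩
  have hrs := (heckeOf hf).rsSum_tendsto hΔ (belongsOf hf)
  obtain ⟨C₀, κ, hg⟩ := Pool.Agent.TH270.MS.EQ.growth_F hΔ hF (heckeOf hf) (belongsOf hf)
  have hgr := Pool.Agent.TH942.RZ.growth_newform hΔ hF (heckeOf hf) (belongsOf hf)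
  have hord : analyticOrderAt F 1 = ((0 : ℕ) : ℕ∞) := by
    rw [Nat.cast_zero]
    exact (hF.1.analyticAt 1).analyticOrderAt_eq_zero.2 h1
  have hm : ∀ m : ℕ, analyticOrderAt F 1 = m ↔ m = 0 := by
    intro m
    rw [hord]
    constructor
    · intro h
      exact (by exact_mod_cast h : 0 = m).symm
    · rintro rfl
      rfl
  have hF0 : 0 < ‖F 1‖ := norm_pos_iff.2 h1
  -- positivity of the value under the hypothesis of Riemann type
  have hpos : NZ F → F 1 = ((‖F 1‖ : ℝ) : ℂ) := by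
    intro hz
    obtain ⟨k0, -, hk⟩ := Pool.Agent.TH942.RZ.curve_riesz hΔ hrs hgr hF hord hz (k := 1) one_pos
    simp only [iteratedDeriv_zero, Nat.factorial_zero, Nat.cast_one, div_one, Nat.cast_zero,
      zero_mul, neg_zero, Real.exp_zero, mul_one] at hk
    have e : F 1 = ((√2 / Real.exp k0 : ℝ) : ℂ) := by
      have h0 : (Real.exp k0 : ℂ) ≠ 0 := by exact_mod_cast (Real.exp_pos k0).ne'
      rw [Complex.ofReal_div, eq_div_iff h0, mul_comm]
      exact hk
    have e2 : ‖F 1‖ = √2 / Real.exp k0 := by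
      rw [e, Complex.norm_real, Real.norm_of_nonneg (by positivity)]
    rw [e2]
    exact e
  have hsq : (0 : ℝ) < √2 := by positivity
  have key : ∀ ρ C : ℝ, 0 < C → ((NZ F ∧ ∃ m : ℕ, ρ = m ∧ analyticOrderAt F 1 = m ∧
        iteratedDeriv m F 1 / (m.factorial : ℂ) =
          ((√2 * Real.exp (m * Real.eulerMascheroniConstant) / C : ℝ) : ℂ)) ↔
      (NZ F ∧ ρ = 0 ∧ C = √2 / ‖F 1‖)) := by
    intro ρ C hC
    refine and_congr_right fun hz => ?_
    have hp := hpos hz
    constructor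
    · rintro ⟨m, e1, e2, e3⟩
      obtain rfl := (hm m).1 e2
      refine ⟨by rw [e1, Nat.cast_zero], ?_⟩
      simp only [iteratedDeriv_zero, Nat.factorial_zero, Nat.cast_one, div_one, Nat.cast_zero,
        zero_mul, Real.exp_zero, mul_one] at e3
      rw [hp] at e3
      have e4 : ‖F 1‖ = √2 / C := by exact_mod_cast e3
      rw [e4]
      field_simp
    · rintro ⟨e1, e2⟩
      refine ⟨0, by rw [e1, Nat.cast_zero], hord, ?_⟩
      simp only [iteratedDeriv_zero, Nat.factorial_zero, Nat.cast_one, div_one, Nat.cast_zero,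
        zero_mul, Real.exp_zero, mul_one]
      have e4 : √2 / C = ‖F 1‖ := by
        rw [e2]
        field_simp
      rw [e4]
      exact hp
  have A1 : ∀ ρ C : ℝ, 0 < C → List.TFAE [
      NZ F ∧ ρ = 0 ∧ C = √2 / ‖F 1‖,
      Tendsto (fun X : ℝ => (∫ x in Real.exp 1..X, |dev a b ρ C x| / x) / Real.log X) atTop (𝓝 0),
      Tendsto (fun X : ℝ => (∫ x in Real.exp 1..X, dev a b ρ C x ^ 2 / x) / Real.log X) atTop
        (𝓝 0)] := by
    intro ρ C hC
    have t := Pool.Agent.TH270.MS.EQ.curve_law hΔ hF hrs (by norm_num : (0 : ℝ) < 1 / 8) hg ρ hC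
    have t1 := t.out 0 1
    have t2 := t.out 0 2
    tfae_have 1 ↔ 2 := (key ρ C hC).symm.trans t1
    tfae_have 1 ↔ 3 := (key ρ C hC).symm.trans t2
    tfae_finish
  refine ⟨A1, fun ρ => ?_, fun ρ C hC0 hlim => ?_⟩
  · rw [← Pool.Agent.TH270.MS.EQ.curve_order hΔ hF hrs (by norm_num : (0 : ℝ) < 1 / 8) hg ρ]
    refine and_congr_right fun _ => ?_
    constructor
    · rintro rfl
      exact ⟨0, by rw [Nat.cast_zero], hord⟩
    · rintro ⟨m, e1, e2⟩
      obtain rfl := (hm m).1 e2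
      rw [e1, Nat.cast_zero]
  · have hC : 0 < C := by
      refine lt_of_le_of_ne (ge_of_tendsto hlim ?_) hC0.symm
      filter_upwards [eventually_gt_atTop 1] with x hx
      have h2 := bsdProduct_pos (a := a) (b := b) x
      have h3 := Real.log_pos hx
      positivity
    have h2 := lmean_zero (bm_dev a b (ρ := ρ) hC).li (dev_lim hC hlim)
    exact ((A1 ρ C hC).out 0 1).2 h2

end Pool.Agent.NH5.GF
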